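import Pool.Agent.H56.Sni3

set_option autoImplicit false

namespace Pool.Agent.Results.MP_a8e783_an.DualBigger
open Pool.Agent.H56.Sni

theorem result : ∃ (X : Type) (_ : NormedAddCommGroup X) (_ : NormedSpace ℝ X),
    CompleteSpace X ∧ Nontrivial X ∧ secondIndex X < secondIndex (StrongDual ℝ X) :=
  ⟨E, inferInstance, inferInstance, inferInstance,
    ⟨e 0, 0, fun h => by simpa [h] using dl_e 0 0⟩,
    upper.trans_lt (lt_of_lt_of_le (by norm_num) lower)⟩

end Pool.Agent.Results.MP_a8e783_an.DualBigger
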